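import Pool.Agent.H.MP_0c110c_nt.C

namespace Pool.Agent.Results.MP_f45d88_nt.Yes

open Polynomial

open Pool.Agent.H.MP_0c110c_nt Finset in
theorem result (p : ℕ) [Fact p.Prime] (h7 : 7 ≤ p) (h4 : p % 4 = 3) :
    (Matrix.of fun j k : Fin ((p - 5) / 2) =>
      (X + C (legendreSym p (((j : ℕ) : ℤ) - ((k : ℕ) : ℤ))) : ℤ[X])).det =
      C ((((p - 2) / 3 : ℕ) : ℤ) ^ 2) * X := by
  obtain ⟨n, hn⟩ : ∃ n, (p - 5) / 2 = n := ⟨_, rfl⟩
  have hp : p = 2 * (n + 1) + 3 := by omega
  rw [hn]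
  obtain ⟨v, h1, h2⟩ := sol p (n + 1) hp h4
  have l1 : legendreSym p (-1) = -1 := by
    rw [legendreSym.at_neg_one (by omega), ZMod.χ₄_nat_three_mod_four h4]
  have h3 : v 0 ^ 2 = (((p - 2) / 3 : ℕ) : ℂ) ^ 2 := by
    have q := legendreSym.quadratic_reciprocity_three_mod_four (p := 3) (q := p) rfl h4
    have h5 : p % 3 ≠ 0 := fun h => by
      have := (Nat.prime_dvd_prime_iff_eq Nat.prime_three Fact.out).1 (Nat.dvd_of_mod_eq_zero h)
      omega
    rw [legendreSym.mod 3 p] at q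
    obtain ⟨m, hm⟩ : ∃ m, (p - 2) / 3 = m := ⟨_, rfl⟩
    rw [hm]
    rcases (by omega : p = 3 * m + 4 ∨ p = 3 * m + 2) with h | h
    · rw [show (p : ℤ) % (3 : ℕ) = 1 by omega, legendreSym.at_one] at q
      have h6 := congrArg (Nat.cast : ℕ → ℂ) h
      rw [show legendreSym p 3 = -1 from q, h6] at h1
      push_cast at h1
      linear_combination h1 / 9
    · rw [show (p : ℤ) % (3 : ℕ) = 2 by omega, show legendreSym 3 2 = -1 by norm_num] at q
      have h6 := congrArg (Nat.cast : ℕ → ℂ) h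
      rw [show legendreSym p 3 = 1 from q, h6] at h1
      push_cast at h1
      linear_combination h1 / 9
  refine Polynomial.funext fun x => Int.cast_injective (α := ℂ) ?_
  have h5 := minor ((Int.castRingHom ℂ).mapMatrix (Matrix.of fun j k : Fin (n + 1) =>
    legendreSym p (((j : ℕ) : ℤ) - ((k : ℕ) : ℤ)))) (fun j k => by
      rw [RingHom.mapMatrix_apply, Matrix.map_apply, Matrix.map_apply, ← map_neg, Matrix.of_apply,
        Matrix.of_apply, ← neg_sub, ← neg_one_mul, legendreSym.mul, l1, neg_one_mul])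
    (by rw [← RingHom.map_det, main p (n + 1) hp h4, map_one]) (fun i => v i)
    (fun k => by rw [← h2 k k.2, sum_range]; rfl) x
  have h6 := ((Int.castRingHom ℂ).comp (evalRingHom x)).map_det (Matrix.of fun j k : Fin n =>
      (X + C (legendreSym p (((j : ℕ) : ℤ) - ((k : ℕ) : ℤ))) : ℤ[X]))
  refine h6.trans (Eq.trans ?_ (h5.trans ?_))
  · congr 1
    ext j k
    simp
  · generalize (p - 2) / 3 = m at h3
    simp [h3]

end Pool.Agent.Results.MP_f45d88_nt.Yes
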